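import Pool.Agent.Helper35.PQF.St

/-!
# Project PQF (MP_d112a4_gt), module DP5: rigidity of positive `2 × 2` matrices.
-/

open Filter Topology Matrix Set MeasureTheory
open scoped ENNReal ComplexOrder

namespace Pool.Agent.Helper26.PM
open Pool.Agent.Helper35.PM

/-- One half of the real computation. -/
theorem core_half (x w y1 y2 h1 h2 k1 k2 : ℝ) (hx : 0 < x) (hd : 0 < x * w - y1 ^ 2 - y2 ^ 2)
    (hh : 0 < h1) (hk : k1 ^ 2 + k2 ^ 2 ≤ h1 * h2)
    (he : x * h2 + w * h1 + (h1 * h2 - (k1 ^ 2 + k2 ^ 2)) - 2 * (y1 * k1 + y2 * k2) = 0) :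
    False := by
  have e1 : x * h2 + w * h1 - 2 * (y1 * k1 + y2 * k2) ≤ 0 := by linarith
  have e2 : h1 * (x * h2 + w * h1 - 2 * (y1 * k1 + y2 * k2)) ≤ 0 :=
    mul_nonpos_of_nonneg_of_nonpos hh.le e1
  have e3 : x * (k1 ^ 2 + k2 ^ 2) ≤ x * (h1 * h2) := mul_le_mul_of_nonneg_left hk hx.le
  have e4 : x * (k1 ^ 2 + k2 ^ 2) + w * h1 ^ 2 - 2 * h1 * (y1 * k1 + y2 * k2) ≤ 0 := by
    nlinarith [e2, e3]
  have e5 : x * (x * (k1 ^ 2 + k2 ^ 2) + w * h1 ^ 2 - 2 * h1 * (y1 * k1 + y2 * k2)) ≤ 0 :=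
    mul_nonpos_of_nonneg_of_nonpos hx.le e4
  have e6 : x * (x * (k1 ^ 2 + k2 ^ 2) + w * h1 ^ 2 - 2 * h1 * (y1 * k1 + y2 * k2)) =
      (x * k1 - h1 * y1) ^ 2 + (x * k2 - h1 * y2) ^ 2 +
        (x * w - y1 ^ 2 - y2 ^ 2) * h1 ^ 2 := by ring
  have e7 : 0 < (x * w - y1 ^ 2 - y2 ^ 2) * h1 ^ 2 := mul_pos hd (pow_pos hh 2)
  nlinarith [sq_nonneg (x * k1 - h1 * y1), sq_nonneg (x * k2 - h1 * y2)]

/-- The real computation. -/
theorem core (x w y1 y2 p s r1 r2 : ℝ) (hx : 0 < x) (hp : 0 < p)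
    (hd : 0 < x * w - y1 ^ 2 - y2 ^ 2)
    (he : p * s - r1 ^ 2 - r2 ^ 2 = x * w - y1 ^ 2 - y2 ^ 2)
    (hi : w * p + x * s - 2 * (y1 * r1 + y2 * r2) ≤ 2 * (x * w - y1 ^ 2 - y2 ^ 2)) :
    p = x ∧ s = w ∧ r1 = y1 ∧ r2 = y2 := by
  have hdet : (r1 - y1) ^ 2 + (r2 - y2) ^ 2 ≤ (p - x) * (s - w) := by nlinarith
  rcases lt_trichotomy p x with h | h | h
  · exfalso
    refine core_half p s r1 r2 (x - p) (w - s) (y1 - r1) (y2 - r2) hp (by linarith)
      (by linarith) (by nlinarith) (by nlinarith)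
  · subst h
    have h0 : (r1 - y1) ^ 2 + (r2 - y2) ^ 2 ≤ 0 := by simpa using hdet
    have h1 : r1 - y1 = 0 := by nlinarith [sq_nonneg (r1 - y1), sq_nonneg (r2 - y2)]
    have h2 : r2 - y2 = 0 := by nlinarith [sq_nonneg (r1 - y1), sq_nonneg (r2 - y2)]
    have h1' : r1 = y1 := by linarith
    have h2' : r2 = y2 := by linarith
    refine ⟨rfl, ?_, h1', h2'⟩
    subst h1' h2'
    have : p * s = p * w := by linarith
    exact mul_left_cancel₀ hp.ne' this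
  · exfalso
    refine core_half x w y1 y2 (p - x) (s - w) (r1 - y1) (r2 - y2) hx hd
      (by linarith) (by nlinarith) (by nlinarith)

/-- The entries of a positive definite matrix. -/
theorem posDef_entries (Q : Mat) (hQ : Q.PosDef) :
    ∃ x w y1 y2 : ℝ, 0 < x ∧ 0 < x * w - y1 ^ 2 - y2 ^ 2 ∧ Q 0 0 = (x : ℂ) ∧ Q 1 1 = (w : ℂ) ∧
      Q 0 1 = ⟨y1, y2⟩ ∧ Q 1 0 = ⟨y1, -y2⟩ ∧ Q.det = ((x * w - y1 ^ 2 - y2 ^ 2 : ℝ) : ℂ) := by
  have h0 : 0 < Q 0 0 := hQ.diag_pos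
  have h1 : 0 < Q 1 1 := hQ.diag_pos
  have hd : 0 < Q.det := hQ.det_pos
  have hH : Q 1 0 = (starRingEnd ℂ) (Q 0 1) := by
    have := congrFun (congrFun hQ.isHermitian 1) 0
    rw [Matrix.conjTranspose_apply] at this
    exact this.symm
  rw [Complex.lt_def] at h0 h1 hd
  have e0 : Q 0 0 = ((Q 0 0).re : ℂ) := by
    apply Complex.ext <;> simp [← h0.2]
  have e1 : Q 1 1 = ((Q 1 1).re : ℂ) := by
    apply Complex.ext <;> simp [← h1.2]
  have hdet : Q.det = (((Q 0 0).re * (Q 1 1).re - (Q 0 1).re ^ 2 - (Q 0 1).im ^ 2 : ℝ) : ℂ) := by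
    rw [Matrix.det_fin_two, hH, e0, e1]
    apply Complex.ext
    · simp [pow_two]; ring
    · simp [pow_two]; ring
  refine ⟨(Q 0 0).re, (Q 1 1).re, (Q 0 1).re, (Q 0 1).im, by simpa using h0.1, ?_, e0, e1, ?_, ?_,
    hdet⟩
  · have := hd.1
    rw [hdet] at this
    simpa only [Complex.zero_re, Complex.ofReal_re] using this
  · rfl
  · rw [hH]; rfl

/-- `A Q A*` is positive definite. -/
theorem posDef_conj (A : SL) (Q : Mat) (hQ : Q.PosDef) : ((A : Mat) * Q * (A : Mat)ᴴ).PosDef := by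
  have hA : IsUnit (A : Mat) := by
    rw [Matrix.isUnit_iff_isUnit_det]
    simp
  exact (Matrix.IsUnit.posDef_star_right_conjugate_iff hA).2 hQ

theorem dp5 : St_DP5 := by
  intro A Q hQ hdisp
  set P : Mat := (A : Mat) * Q * (A : Mat)ᴴ with hPdef
  have hP : P.PosDef := posDef_conj A Q hQ
  obtain ⟨x, w, y1, y2, hx, hd, q00, q11, q01, q10, qdet⟩ := posDef_entries Q hQ
  obtain ⟨p, s, r1, r2, hp, hd', p00, p11, p01, p10, pdet⟩ := posDef_entries P hP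
  have hdet : P.det = Q.det := by
    rw [hPdef, Matrix.det_mul, Matrix.det_mul, Matrix.det_conjTranspose]
    simp
  have he : p * s - r1 ^ 2 - r2 ^ 2 = x * w - y1 ^ 2 - y2 ^ 2 := by
    rw [pdet, qdet] at hdet
    exact_mod_cast hdet
  have hdne : Q.det ≠ 0 := by
    rw [qdet]
    exact_mod_cast hd.ne'
  have htr : disp (A : Mat) Q =
      (w * p + x * s - 2 * (y1 * r1 + y2 * r2)) / (x * w - y1 ^ 2 - y2 ^ 2) := by
    have e1 : Q⁻¹ * (A : Mat) * Q * (A : Mat)ᴴ = Q⁻¹ * P := by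
      rw [hPdef]; simp only [Matrix.mul_assoc]
    have e2 : Q⁻¹ = (Q.det)⁻¹ • Q.adjugate := by
      rw [Matrix.inv_def, Ring.inverse_eq_inv']
    have e3 : (Q⁻¹ * P).trace = (Q.det)⁻¹ * (Q.adjugate * P).trace := by
      rw [e2, Matrix.smul_mul, Matrix.trace_smul, smul_eq_mul]
    have e4 : (Q.adjugate * P).trace =
        ((w * p + x * s - 2 * (y1 * r1 + y2 * r2) : ℝ) : ℂ) := by
      rw [Matrix.adjugate_fin_two, Matrix.trace_fin_two, Matrix.mul_apply, Matrix.mul_apply]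
      simp only [Fin.sum_univ_two, Matrix.of_apply, Matrix.cons_val_zero, Matrix.cons_val_one,
        q00, q11, q01, q10, p00, p11, p01, p10, Matrix.cons_val', Matrix.cons_val_fin_one]
      apply Complex.ext
      · simp; ring
      · simp; ring
    unfold disp
    rw [e1, e3, e4, qdet, ← Complex.ofReal_inv, ← Complex.ofReal_mul, Complex.ofReal_re]
    rw [div_eq_inv_mul]
  rw [htr, div_le_iff₀ hd] at hdisp
  obtain ⟨a1, a2, a3, a4⟩ := core x w y1 y2 p s r1 r2 hx hp hd he hdisp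
  subst a1 a2 a3 a4
  ext i j
  fin_cases i <;> fin_cases j
  · simpa using p00.trans q00.symm
  · simpa using p01.trans q01.symm
  · simpa using p10.trans q10.symm
  · simpa using p11.trans q11.symm

end Pool.Agent.Helper26.PM
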